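import Pool.Agent.V5helper20.FC.Stm
import Pool.Agent.V5helper79.QB.MINg

set_option autoImplicit false

/-!
# Jobs MNC and VTX: the least unknown distance in the class, and the number of vertices
-/

namespace Pool.Agent.V5helper34.FC

open Set Complex
open Pool.Agent.W780.PG (IsConvexPolygon region)
open Pool.Agent.N275.GP
open Pool.Agent.V5helper71.QB
open Pool.Agent.V5helper79.QB (ap_pos)
open Pool.Agent.V5helper20.FC
open scoped Real

open scoped Classical in
/-- the sides whose neighbours turn by at least `π` (shifted by one) -/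
noncomputable def BB {m : ℕ} (q : Fin (m + 3) → ℂ) : Finset (Fin (m + 3)) :=
  Finset.univ.filter fun a => ¬ 0 < cr (nu q a) (nu q (a + 1 + 1))

theorem mem_BB {m : ℕ} {q : Fin (m + 3) → ℂ} {a : Fin (m + 3)} :
    a ∈ BB q ↔ ¬ 0 < cr (nu q a) (nu q (a + 1 + 1)) := by
  classical
  rw [BB, Finset.mem_filter]
  simp

/-- there are at most three such sides, or `m = 1` and all four are -/
theorem card_BB {m : ℕ} {q : Fin (m + 3) → ℂ} (hq : IsConvexPolygon q) :
    (BB q).card ≤ 3 ∨ (BB q = Finset.univ ∧ m = 1) := by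
  classical
  obtain ⟨φ, hφ⟩ := exists_An hq 0
  by_cases hcard : (BB q).card ≤ 3
  · exact Or.inl hcard
  right
  have hcard : 4 ≤ (BB q).card := by omega
  set B := BB q with hB
  set g : Fin (m + 3) → ℝ := fun a => φ (a.val + 2) - φ a.val with hg
  have hgpos : ∀ a, 0 < g a := fun a => sub_pos.2 (hφ.mono (by omega))
  have hgB : ∀ a ∈ B, π ≤ g a := by
    intro a ha
    rw [hB, mem_BB] at ha
    by_contra h
    push Not at h
    apply ha
    have h1 := hφ.cr' a.val (a.val + 2)
    have e1 : (0 : Fin (m + 3)) + Fin.ofNat (m + 3) a.val = a := by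
      have := add_fo (0 : Fin (m + 3)) a
      rwa [sub_zero] at this
    have e2 : (0 : Fin (m + 3)) + Fin.ofNat (m + 3) (a.val + 2) = a + 1 + 1 := by
      rw [fo_succ, fo_succ, ← add_assoc, ← add_assoc, e1]
    rw [e1, e2] at h1
    rw [h1]
    exact Real.sin_pos_of_pos_of_lt_pi (hgpos a) h
  have hsum : ∑ a, g a = 4 * π := by
    rw [hg, Fin.sum_univ_eq_sum_range (fun k => φ (k + 2) - φ k) (m + 3)]
    have h1 : ∀ k ∈ Finset.range (m + 3), φ (k + 2) - φ k =
        (φ (k + 1 + 1) - φ (k + 1)) + (φ (k + 1) - φ k) := fun k _ => by ring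
    rw [Finset.sum_congr rfl h1, Finset.sum_add_distrib, Finset.sum_range_sub,
      Finset.sum_range_sub (fun k => φ (k + 1))]
    have h2 := hφ.per 1
    have h3 := hφ.two_pi
    have e1 : m + 3 + 1 = 1 + (m + 3) := by ring
    rw [e1, h2, h3, hφ.zero]
    simp only [zero_add]
    ring
  have hBu : B = Finset.univ := by
    by_contra h
    obtain ⟨a, ha⟩ : ∃ a, a ∉ B := by
      by_contra h2
      push Not at h2
      exact h (Finset.eq_univ_iff_forall.2 h2)
    have h1 : ∑ b ∈ insert a B, g b ≤ ∑ b, g b :=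
      Finset.sum_le_sum_of_subset_of_nonneg (Finset.subset_univ _) fun i _ _ => (hgpos i).le
    rw [Finset.sum_insert ha, hsum] at h1
    have h2 : ∑ b ∈ B, π ≤ ∑ b ∈ B, g b := Finset.sum_le_sum hgB
    rw [Finset.sum_const, nsmul_eq_mul] at h2
    have h3 : (4 : ℝ) ≤ B.card := by exact_mod_cast hcard
    have h4 := mul_le_mul_of_nonneg_right h3 Real.pi_pos.le
    have h5 := hgpos a
    linarith
  refine ⟨hBu, ?_⟩
  have h2 : ∑ b ∈ B, π ≤ ∑ b ∈ B, g b := Finset.sum_le_sum hgB
  rw [hBu, hsum, Finset.sum_const, nsmul_eq_mul, Finset.card_univ, Fintype.card_fin] at h2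
  have h3 : ((m + 3 : ℕ) : ℝ) ≤ 4 := le_of_mul_le_mul_right h2 Real.pi_pos
  have h4 : m + 3 ≤ 4 := by exact_mod_cast h3
  rw [hBu, Finset.card_univ, Fintype.card_fin] at hcard
  omega

theorem succ_val {m : ℕ} (a : Fin (m + 3)) : (a + 1 - a).val = 1 ∧ (a + 1 + 1 - a).val = 2 := by
  have n1 : (1 : Fin (m + 3)).val = 1 := rfl
  have n2 : ((1 : Fin (m + 3)) + 1).val = 2 := by
    rw [Fin.val_add, n1, Nat.mod_eq_of_lt (by omega)]
  have e1 : a + 1 - a = 1 := add_sub_cancel_left _ _
  have e2 : a + 1 + 1 - a = 1 + 1 := by rw [add_assoc, add_sub_cancel_left]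
  exact ⟨by rw [e1, n1], by rw [e2, n2]⟩

theorem sh_of {m : ℕ} {q : Fin (m + 3) → ℂ} {a : Fin (m + 3)}
    (h : 0 < cr (nu q a) (nu q (a + 1 + 1))) : Sh (nu q) a (a + 1 + 1) ∧ Bt a (a + 1) (a + 1 + 1) := by
  obtain ⟨h1, h2⟩ := succ_val a
  refine ⟨⟨?_, h⟩, ?_, ?_⟩
  · intro h3
    rw [h3, h1] at h2
    omega
  · omega
  · omega

/-- the distance of the neighbours of a side is at most its length -/
theorem dlt_le_ln {m : ℕ} {q : Fin (m + 3) → ℂ} (hq : IsConvexPolygon q) {a : Fin (m + 3)}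
    (h : 0 < cr (nu q a) (nu q (a + 1 + 1))) : dlt q a (a + 1 + 1) ≤ ln q (a + 1) := by
  have h1 := (Pool.Agent.N441.GP.gd h_PH m q a (a + 1 + 1) hq (sh_of h).1).2 (q (a + 1))
    (q (a + 1 + 1)) (co_next hq a).ge (fun i _ => ip_le_co hq _ _) le_rfl
    (fun i _ => ip_le_co hq _ _)
  rw [norm_sub_rev] at h1
  exact h1

/-- if `m = 1` and all sums of adjacent angles are at least `π`, then opposite sides are parallel -/
theorem cr_eq_zero {q : Fin (1 + 3) → ℂ} (h : BB q = Finset.univ) (a : Fin (1 + 3)) :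
    cr (nu q a) (nu q (a + 2)) = 0 := by
  have h1 : a ∈ BB q := by rw [h]; exact Finset.mem_univ _
  have h2 : a + 2 ∈ BB q := by rw [h]; exact Finset.mem_univ _
  rw [mem_BB] at h1 h2
  have e1 : ∀ a : Fin (1 + 3), a + 1 + 1 = a + 2 := by decide
  have e2 : ∀ a : Fin (1 + 3), a + 2 + 1 + 1 = a := by decide
  rw [e1] at h1
  rw [e2, cr_comm] at h2
  have k3 := not_lt.1 h1
  have k4 := not_lt.1 h2
  linarith

theorem ap_neg {m : ℕ} {q : Fin (m + 3) → ℂ} (hq : IsConvexPolygon q) {a b : Fin (m + 3)}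
    (h : Ap (nu q) a b) : nu q b = -nu q a := by
  obtain ⟨hab, hc⟩ := h
  have h1 : b ≠ a + 1 := by
    rintro rfl
    have := cr_next hq a
    linarith
  have h2 := ip_lt hq hab.symm h1
  have hsq := ip_sq_cr_sq (nu q a) (nu q b)
  rw [hc, norm_nu hq, norm_nu hq] at hsq
  have hv : nu q b = (ip (nu q a) (nu q b) : ℂ) * nu q a := by
    have e1 := ip_one hq a
    apply Complex.ext
    · simp only [Complex.mul_re, Complex.ofReal_re, Complex.ofReal_im, zero_mul, sub_zero]
      simp only [ip, cr] at e1 hc ⊢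
      linear_combination (-(nu q b).re) * e1 - (nu q a).im * hc
    · simp only [Complex.mul_im, Complex.ofReal_re, Complex.ofReal_im, zero_mul, add_zero]
      simp only [ip, cr] at e1 hc ⊢
      linear_combination (-(nu q b).im) * e1 + (nu q a).re * hc
  have h3 : (ip (nu q a) (nu q b) - 1) * (ip (nu q a) (nu q b) + 1) = 0 := by linarith
  rcases mul_eq_zero.1 h3 with h4 | h4
  · exfalso
    have h5 : ip (nu q a) (nu q b) = 1 := by linarith
    rw [h5] at hv
    have h6 : nu q b = nu q a := by rw [hv]; push_cast; ring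
    have h7 := ip_le_co hq b a
    rw [h6] at h7
    have h8 : co q b = ip (nu q b) (q b) := rfl
    have h9 : co q a = ip (nu q a) (q a) := rfl
    rw [h6] at h8
    linarith
  · have h5 : ip (nu q a) (nu q b) = -1 := by linarith
    rw [hv, h5]
    push_cast
    ring

theorem exists_short' {m : ℕ} {q : Fin (m + 3) → ℂ} (hq : Cs q) (S : Finset (Fin (m + 3)))
    (hS : S.card + 1 ≤ m) : ∃ a, a + 1 ∉ S ∧ 0 < cr (nu q a) (nu q (a + 1 + 1)) := by
  classical
  rcases card_BB hq.conv with hc | ⟨hu, hm⟩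
  · by_contra hcon
    push Not at hcon
    have hcov : (Finset.univ : Finset (Fin (m + 3))) ⊆ S.image (fun i => i - 1) ∪ BB q := by
      intro a _
      rw [Finset.mem_union]
      by_cases h : a + 1 ∈ S
      · left
        exact Finset.mem_image.2 ⟨a + 1, h, add_sub_cancel_right _ _⟩
      · right
        rw [mem_BB]
        exact not_lt.2 (hcon a h)
    have h1 := Finset.card_le_card hcov
    have h2 := Finset.card_union_le (S.image (fun i => i - 1)) (BB q)
    have h3 : (S.image (fun i => i - 1)).card ≤ S.card := Finset.card_image_le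
    rw [Finset.card_univ, Fintype.card_fin] at h1
    omega
  · exfalso
    subst hm
    have h0 := cr_eq_zero hu 0
    have hAp : Ap (nu q) 0 2 := ⟨by decide, by simpa using h0⟩
    have h1 := hq.par 0 2 1 hAp
    have h2 := ap_neg hq.conv hAp
    have h3 : co q 0 = ip (nu q 0) (q 1) := (co_next hq.conv 0).symm
    have h4 : co q 2 = -ip (nu q 0) (q 2) := by
      unfold co
      rw [h2]
      simp only [ip, Complex.neg_re, Complex.neg_im]
      ring
    have h5 := ip_le (nu q 0) (q 1 - q 2)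
    rw [norm_nu hq.conv, one_mul, ip_sub, norm_sub_rev] at h5
    have h6 : ln q 1 = ‖q 2 - q 1‖ := rfl
    linarith

theorem t_MNC : S_MNC := by
  classical
  intro n q S hq hS
  obtain ⟨a, ha, hc⟩ := exists_short' hq S hS
  set W : Set ℝ := {x | ∃ a b, Sh (nu q) a b ∧ Un S a b ∧ dlt q a b = x} with hW
  have hfin : W.Finite := by
    refine (Set.finite_range fun ab : Fin (n + 3) × Fin (n + 3) => dlt q ab.1 ab.2).subset ?_
    rintro x ⟨a, b, -, -, rfl⟩
    exact ⟨(a, b), rfl⟩
  have hmem : dlt q a (a + 1 + 1) ∈ W := ⟨a, a + 1 + 1, (sh_of hc).1, ⟨a + 1, (sh_of hc).2, ha⟩, rfl⟩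
  obtain ⟨δ, hδ, hmin⟩ := Set.exists_min_image W id hfin ⟨_, hmem⟩
  have hle : δ ≤ ln q (a + 1) := (hmin _ hmem).trans (dlt_le_ln hq.conv hc)
  have hap : ∀ x y, Ap (nu q) x y → δ < co q x + co q y := fun x y h =>
    hle.trans_lt (hq.par x y _ h)
  refine ⟨δ, ⟨?_, fun x y h1 h2 => hmin _ ⟨x, y, h1, h2, rfl⟩, fun x y h => (hap x y h).le⟩,
    hδ, hap⟩
  obtain ⟨x, y, h1, -, rfl⟩ := hδ
  exact (Pool.Agent.N441.GP.gd h_PH n q x y hq.conv h1).1

theorem t_VTX : S_VTX := by
  classical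
  intro n q δ hn hq hL
  rcases card_BB hq with hc | ⟨hu, hm⟩
  · have h1 : ∀ a ∈ Finset.univ \ BB q, δ ≤ ln q (a + 1) := by
      intro a ha
      rw [Finset.mem_sdiff, mem_BB, not_not] at ha
      exact (hL.lv.sh _ _ (sh_of ha.2).1 ⟨a + 1, (sh_of ha.2).2, Finset.notMem_empty _⟩).trans
        (dlt_le_ln hq ha.2)
    have h2 : ∑ a ∈ Finset.univ \ BB q, δ ≤ ∑ a ∈ Finset.univ \ BB q, ln q (a + 1) :=
      Finset.sum_le_sum h1
    have h3 : ∑ a ∈ Finset.univ \ BB q, ln q (a + 1) ≤ ∑ a, ln q (a + 1) :=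
      Finset.sum_le_sum_of_subset_of_nonneg (Finset.subset_univ _) fun i _ _ => norm_nonneg _
    have h4 : ∑ a, ln q (a + 1) = ∑ a, ln q a :=
      Fintype.sum_equiv (Equiv.addRight (1 : Fin (n + 3))) _ _ fun _ => rfl
    rw [Finset.sum_const, nsmul_eq_mul] at h2
    have h5 : n ≤ (Finset.univ \ BB q).card := by
      rw [Finset.card_sdiff_of_subset (Finset.subset_univ _), Finset.card_univ, Fintype.card_fin]
      omega
    have h6 : (n : ℝ) ≤ ((Finset.univ \ BB q).card : ℝ) := by exact_mod_cast h5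
    have h7 := mul_le_mul_of_nonneg_right h6 hL.lv.pos.le
    linarith
  · exfalso
    subst hm
    obtain ⟨a, b, ⟨hab, hpos⟩, -, -⟩ := hL.ex
    have hcases : ∀ a b : Fin (1 + 3), b = a ∨ b = a + 1 ∨ b = a + 2 ∨ a = b + 1 := by decide
    rcases hcases a b with rfl | rfl | rfl | rfl
    · simp [cr, mul_comm] at hpos
    · exact hab rfl
    · rw [cr_eq_zero hu] at hpos
      exact lt_irrefl _ hpos
    · have := cr_next hq b
      rw [cr_comm] at this
      linarith

end Pool.Agent.V5helper34.FC
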